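import Mathlib

namespace Pool.Agent.MP_bcf1b9_lc

/-- Formulas of the basic epistemic language; atoms and agents are natural numbers. -/
inductive Fm : Type
  | atom (p : ℕ)
  | neg (φ : Fm)
  | and (φ ψ : Fm)
  | K (i : ℕ) (φ : Fm)

/-- Goedel numbers of formulas. -/
def enc : Fm → ℕ
  | .atom p => 4 * p
  | .neg φ => 4 * enc φ + 1
  | .and φ ψ => 4 * Nat.pair (enc φ) (enc ψ) + 2
  | .K i φ => 4 * Nat.pair i (enc φ) + 3

/-- Epistemic models. -/
structure KM where
  W : Type
  R : ℕ → W → W → Prop
  V : ℕ → W → Prop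

/-- Truth of a formula at a world. -/
def Sat (M : KM) : Fm → M.W → Prop
  | .atom p, w => M.V p w
  | .neg φ, w => ¬ Sat M φ w
  | .and φ ψ, w => Sat M φ w ∧ Sat M ψ w
  | .K i φ, w => ∀ v, M.R i w v → Sat M φ v

/-- Action models. -/
structure AM where
  E : Type
  S : ℕ → E → E → Prop
  pre : E → Fm

/-- Product update. -/
def upd (M : KM) (A : AM) : KM where
  W := {x : M.W × A.E // Sat M (A.pre x.2) x.1}
  R i x y := M.R i x.1.1 y.1.1 ∧ A.S i x.1.2 y.1.2
  V p x := M.V p x.1.1

/-- The layers `M`, `M × A`, `(M × A) × A`, ... -/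
def layer (M : KM) (A : AM) : ℕ → KM
  | 0 => M
  | n + 1 => upd (layer M A n) A

/-- The update evolution model: the disjoint union of the layers. -/
def tree (M : KM) (A : AM) : KM where
  W := Σ n, (layer M A n).W
  R i x y := ∃ n u v, x = ⟨n, u⟩ ∧ y = ⟨n, v⟩ ∧ (layer M A n).R i u v
  V p x := (layer M A x.1).V p x.2

/-- Bisimulations on a model. -/
def IsBis (M : KM) (Z : M.W → M.W → Prop) : Prop :=
  ∀ x y, Z x y → (∀ p, M.V p x ↔ M.V p y) ∧
    (∀ i x', M.R i x x' → ∃ y', M.R i y y' ∧ Z x' y') ∧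
    (∀ i y', M.R i y y' → ∃ x', M.R i x x' ∧ Z x' y')

/-- The largest bisimulation. -/
def Bis (M : KM) (x y : M.W) : Prop := ∃ Z, IsBis M Z ∧ Z x y

/-- Finitely many bisimulation classes. -/
def FinBis (M : KM) : Prop := Finite (Quot (Bis M))

/-- Codes of finite epistemic models: number of worlds, triples (agent, world, world), pairs
(atom, world). -/
abbrev MC : Type := ℕ × List (ℕ × ℕ × ℕ) × List (ℕ × ℕ)

/-- Codes of finite action models: Goedel numbers of the preconditions, triples
(agent, event, event). -/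
abbrev AC : Type := List ℕ × List (ℕ × ℕ × ℕ)

/-- The model with a given code. -/
def toKM (c : MC) : KM where
  W := Fin c.1
  R i u v := (i, u.1, v.1) ∈ c.2.1
  V p w := (p, w.1) ∈ c.2.2

/-- The action model with a given list of preconditions and list of edges. -/
def toAM (l : List Fm) (s : List (ℕ × ℕ × ℕ)) : AM where
  E := Fin l.length
  S i e f := (i, e.1, f.1) ∈ s
  pre e := l.get e

/-- The decision problem: the update evolution model is finite modulo bisimulation. -/
def FinEv (c : MC × AC) : Prop :=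
  ∃ l : List Fm, c.2.1 = l.map enc ∧ FinBis (tree (toKM c.1) (toAM l c.2.2))

end Pool.Agent.MP_bcf1b9_lc
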