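import Pool.Agent.MP_bcf1b9_lc.Defs

namespace Pool.Agent.MP_bcf1b9_lc

/-- The listed triples (agent, point, point) use only agents below `k`, and for each of these
agents they form an equivalence relation on the points below `N`. -/
def IsS5 (k N : ℕ) (s : List (ℕ × ℕ × ℕ)) : Prop :=
  (∀ t ∈ s, t.1 < k) ∧ ∀ i < k, Equivalence fun u v : Fin N => (i, u.1, v.1) ∈ s

/-- The formula mentions only agents below `k`. -/
def Uses (k : ℕ) : Fm → Prop
  | .atom _ => True
  | .neg φ => Uses k φ
  | .and φ ψ => Uses k φ ∧ Uses k ψ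
  | .K i φ => i < k ∧ Uses k φ

/-- Codes of pairs of a finite model and a finite action model for `k` agents in which all
relations are equivalence relations. -/
def Inst (k : ℕ) (c : MC × AC) : Prop :=
  IsS5 k c.1.1 c.1.2.1 ∧ IsS5 k c.2.1.length c.2.2 ∧ ∀ φ, enc φ ∈ c.2.1 → Uses k φ

end Pool.Agent.MP_bcf1b9_lc
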